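import Mathlib

/-!
# Project LZ, second part: power saving is a local property

With (E1), (E2), (G): a power saving `F_R(x) = O_x(R^(1-δ(x)))` at the points of a tiny arc implies a zero-free
half plane `Re s > 1 - δ` for all Dirichlet L-functions. The pieces here give the (classical) converse, so
that the final theorem is an equivalence: pointwise power saving on one arc, uniform power saving on the
circle, quasi-GRH.
-/

set_option autoImplicit false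

namespace Pool.Agent.T9h54.LZ

open Finset

/-- `F_R(x) = ∑_{n ≤ R} μ(n) e(nx)` -/
noncomputable def F (R : ℕ) (x : ℝ) : ℂ :=
  ∑ n ∈ Finset.Icc 1 R, ((ArithmeticFunction.moebius n : ℤ) : ℂ) *
    Complex.exp (2 * Real.pi * Complex.I * n * x)

/-- all Dirichlet L-functions are free of zeros in `Re s > a` -/
def ZeroFree (a : ℝ) : Prop := ∀ (q : ℕ) [NeZero q] (χ : DirichletCharacter ℂ q) (s : ℂ),
  a < s.re → s ≠ 1 → DirichletCharacter.LFunction χ s ≠ 0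

/-- (M1) minor arcs (Vinogradov, Davenport; any exponents, any power saving). -/
def S_M1 : Prop := ∀ η : ℝ, 0 < η → η < 1 / 4 → ∃ δ : ℝ, 0 < δ ∧ ∃ C : ℝ, ∀ (R : ℕ) (x : ℝ) (q : ℕ) (a : ℤ),
  1 ≤ R → 1 ≤ q → IsCoprime a (q : ℤ) → |x - a / q| ≤ 1 / (q : ℝ) ^ 2 → (R : ℝ) ^ η ≤ q →
  (q : ℝ) ≤ (R : ℝ) ^ (1 - η) → ‖F R x‖ ≤ C * (R : ℝ) ^ (1 - δ)

/-- (M2) power saving for `∑ μ(n) χ(n)` with polynomial dependence on the modulus, from quasi-GRH. -/
def S_M2 : Prop := ∀ a : ℝ, a < 1 → ZeroFree a → ∃ δ : ℝ, 0 < δ ∧ ∃ C A : ℝ, ∀ (q : ℕ) [NeZero q]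
  (χ : DirichletCharacter ℂ q) (R : ℕ), 1 ≤ R →
  ‖∑ n ∈ Finset.Icc 1 R, ((ArithmeticFunction.moebius n : ℤ) : ℂ) * χ (n : ZMod q)‖ ≤
    C * (q : ℝ) ^ A * (R : ℝ) ^ (1 - δ)

/-- uniform power saving on the circle -/
def Uniform : Prop := ∃ δ : ℝ, 0 < δ ∧ ∃ C : ℝ, ∀ (R : ℕ) (x : ℝ), 1 ≤ R → ‖F R x‖ ≤ C * (R : ℝ) ^ (1 - δ)

/-- (M3) from (M1), (M2): Dirichlet approximation with denominators at most `R^(1-η)`, `η` small; for
`q < R^η` partial summation in `x = a/q + β` and characters modulo `q` (compare `LSeries_mu_ad`, `conv_eq` in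
LZ/V.lean: `φ(q) F_R(b/q) = ∑_χ χ(b) ∑_{d | q} μ(d) cc χ d ∑_{m ≤ R/d} μ(m) χ(m)`). -/
def S_M3 : Prop := S_M1 → S_M2 → (∃ a : ℝ, a < 1 ∧ ZeroFree a) → Uniform

end Pool.Agent.T9h54.LZ
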