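import Pool.Agent.T9h54.LZ.V
import Pool.Agent.Helper112.MultLS

/-!
# Project LZ: Gauss sums of a primitive character lifted by one prime
-/

set_option autoImplicit false

namespace Pool.Agent.T9h54.LZ

open Finset DirichletCharacter

theorem sum_range_mul_add (q P : ℕ) (f : ℕ → ℂ) :
    ∑ b ∈ range (q * P), f b = ∑ k ∈ range P, ∑ i ∈ range q, f (q * k + i) := by
  induction P with
  | zero => simp
  | succ n ih => rw [Nat.mul_succ, Finset.sum_range_add, ih, Finset.sum_range_succ]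

theorem sum_range_zmod (q : ℕ) [NeZero q] (f : ZMod q → ℂ) :
    ∑ i ∈ range q, f (i : ZMod q) = ∑ a : ZMod q, f a := by
  refine Finset.sum_bij' (fun k _ => (k : ZMod q)) (fun a _ => a.val) ?_ ?_ ?_ ?_ ?_
  · intro a _; exact Finset.mem_univ _
  · intro a _; exact Finset.mem_range.mpr (ZMod.val_lt a)
  · intro a ha; exact ZMod.val_cast_of_lt (Finset.mem_range.mp ha)
  · intro a _; exact ZMod.natCast_zmod_val a
  · intro a _; rfl

section

variable {q P : ℕ} [NeZero q] [NeZero P] [NeZero (q * P)]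

theorem lift_apply (hP : P.Prime) (hPq : ¬ P ∣ q) (χ : DirichletCharacter ℂ q) (b : ℕ) :
    (changeLevel (dvd_mul_right q P) χ) (b : ZMod (q * P)) =
      if P ∣ b then 0 else χ (b : ZMod q) := by
  by_cases hb : b.Coprime (q * P)
  · have h1 := changeLevel_eq_cast_of_dvd χ (dvd_mul_right q P) (ZMod.unitOfCoprime b hb)
    rw [ZMod.coe_unitOfCoprime] at h1
    rw [h1, ZMod.cast_natCast (dvd_mul_right q P)]
    have hPb : ¬ P ∣ b := by
      intro h
      have h2 : b.Coprime P := hb.coprime_dvd_right (dvd_mul_left P q)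
      exact (Nat.Prime.coprime_iff_not_dvd hP).1 h2.symm h
    rw [if_neg hPb]
  · have h0 : (changeLevel (dvd_mul_right q P) χ) (b : ZMod (q * P)) = 0 := by
      apply MulChar.map_nonunit
      rwa [ZMod.isUnit_iff_coprime]
    rw [h0]
    split_ifs with hPb
    · rfl
    · symm
      apply MulChar.map_nonunit
      rw [ZMod.isUnit_iff_coprime]
      intro hc
      exact hb (Nat.Coprime.mul_right hc ((Nat.Prime.coprime_iff_not_dvd hP).2 hPb).symm)

/-- the exponential with denominators -/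
theorem std_scale (n b : ℕ) :
    (ZMod.stdAddChar (((n * (P * b) : ℕ) : ZMod (q * P))) : ℂ) =
      ZMod.stdAddChar ((n * b : ℕ) : ZMod q) := by
  have h1 := ZMod.stdAddChar_coe (N := q * P) ((n * (P * b) : ℕ) : ℤ)
  have h2 := ZMod.stdAddChar_coe (N := q) ((n * b : ℕ) : ℤ)
  push_cast at h1 h2 ⊢
  rw [h1, h2]
  congr 1
  have hq : (q : ℂ) ≠ 0 := by exact_mod_cast NeZero.ne q
  have hP : (P : ℂ) ≠ 0 := by exact_mod_cast NeZero.ne P
  field_simp

theorem sum_P (n : ℕ) : ∑ k ∈ range P, (ZMod.stdAddChar (((n * (q * k) : ℕ) : ZMod (q * P))) : ℂ) =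
    if P ∣ n then (P : ℂ) else 0 := by
  have h1 : ∀ k ∈ range P, (ZMod.stdAddChar (((n * (q * k) : ℕ) : ZMod (q * P))) : ℂ) =
      ZMod.stdAddChar ((n : ZMod P) * (k : ZMod P)) := by
    intro k _
    have h1 := ZMod.stdAddChar_coe (N := q * P) ((n * (q * k) : ℕ) : ℤ)
    have h2 := ZMod.stdAddChar_coe (N := P) ((n * k : ℕ) : ℤ)
    push_cast at h1 h2 ⊢
    rw [h1, h2]
    congr 1
    have hq : (q : ℂ) ≠ 0 := by exact_mod_cast NeZero.ne q
    have hP : (P : ℂ) ≠ 0 := by exact_mod_cast NeZero.ne P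
    field_simp
  rw [Finset.sum_congr rfl h1, sum_range_zmod P (fun k => (ZMod.stdAddChar ((n : ZMod P) * k) : ℂ))]
  have h3 := AddChar.sum_mulShift (n : ZMod P) (ZMod.isPrimitive_stdAddChar P)
  have h4 : ∀ x : ZMod P, (ZMod.stdAddChar ((n : ZMod P) * x) : ℂ) =
      ZMod.stdAddChar (x * (n : ZMod P)) := fun x => by rw [mul_comm]
  rw [Finset.sum_congr rfl fun x _ => h4 x, h3]
  by_cases h : P ∣ n
  · rw [if_pos h, if_pos ((ZMod.natCast_eq_zero_iff n P).2 h), ZMod.card]
  · rw [if_neg h, if_neg (fun h' => h ((ZMod.natCast_eq_zero_iff n P).1 h'))]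
    simp

/-- The Gauss sums of the lifted character. -/
theorem cc_lift (hP : P.Prime) (hPq : ¬ P ∣ q) {χ : DirichletCharacter ℂ q} (hχ : χ.IsPrimitive)
    (n : ℕ) : cc (changeLevel (dvd_mul_right q P) χ) n =
      ((if P ∣ n then (P : ℂ) * χ ((n / P : ℕ) : ZMod q) else 0) -
        χ⁻¹ (P : ZMod q) * χ (n : ZMod q)) * gaussSum χ⁻¹ (ZMod.stdAddChar : AddChar (ZMod q) ℂ) := by
  have hinv : (χ⁻¹).IsPrimitive := by
    rw [DirichletCharacter.isPrimitive_def, DirichletCharacter.conductor_inv]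
    exact hχ
  have hg : ∀ m : ℕ, ∑ i ∈ range q, χ⁻¹ (i : ZMod q) * (ZMod.stdAddChar ((m * i : ℕ) : ZMod q) : ℂ) =
      χ (m : ZMod q) * gaussSum χ⁻¹ (ZMod.stdAddChar : AddChar (ZMod q) ℂ) := by
    intro m
    have h1 := gaussSum_mulShift_of_isPrimitive (ZMod.stdAddChar : AddChar (ZMod q) ℂ) hinv
      (m : ZMod q)
    rw [inv_inv] at h1
    rw [← h1]
    unfold gaussSum
    rw [← sum_range_zmod q]
    refine Finset.sum_congr rfl fun i _ => ?_
    rw [AddChar.mulShift_apply]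
    push_cast
    rfl
  set X := changeLevel (dvd_mul_right q P) χ with hX
  have hXinv : X⁻¹ = changeLevel (dvd_mul_right q P) χ⁻¹ := by rw [hX, map_inv]
  -- step 1: sum over the range
  have s1 : cc X n = ∑ b ∈ range (q * P), X⁻¹ (b : ZMod (q * P)) *
      (ZMod.stdAddChar ((n * b : ℕ) : ZMod (q * P)) : ℂ) := by
    have e1 : ∑ b ∈ range (q * P), X⁻¹ (b : ZMod (q * P)) *
        (ZMod.stdAddChar ((n * b : ℕ) : ZMod (q * P)) : ℂ) =
        ∑ b : ZMod (q * P), X⁻¹ b * ad b n := by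
      rw [← sum_range_zmod (q * P)]
      refine Finset.sum_congr rfl fun b _ => ?_
      unfold ad
      push_cast
      rfl
    rw [e1]
    unfold cc
    classical
    rw [← Finset.sum_subset (Finset.subset_univ (univ.filter fun b : ZMod (q * P) => IsUnit b))]
    · refine Finset.sum_bij (fun (b : (ZMod (q * P))ˣ) _ => (b : ZMod (q * P))) ?_ ?_ ?_ ?_
      · intro b _
        simp
      · intro b _ c _ h
        exact Units.ext h
      · intro b hb
        rw [mem_filter] at hb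
        exact ⟨hb.2.unit, mem_univ _, rfl⟩
      · intro b _
        rfl
    · intro b _ hb
      have : ¬ IsUnit b := by
        intro h
        exact hb (mem_filter.2 ⟨mem_univ _, h⟩)
      rw [MulChar.map_nonunit _ this, zero_mul]
  rw [s1]
  have s2 : ∑ b ∈ range (q * P), X⁻¹ (b : ZMod (q * P)) *
      (ZMod.stdAddChar ((n * b : ℕ) : ZMod (q * P)) : ℂ) =
      (∑ b ∈ range (q * P), χ⁻¹ (b : ZMod q) *
      (ZMod.stdAddChar ((n * b : ℕ) : ZMod (q * P)) : ℂ)) -
      ∑ b ∈ (range (q * P)).filter (fun b => P ∣ b), χ⁻¹ (b : ZMod q) *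
      (ZMod.stdAddChar ((n * b : ℕ) : ZMod (q * P)) : ℂ) := by
    rw [Finset.sum_filter, ← Finset.sum_sub_distrib]
    refine Finset.sum_congr rfl fun b _ => ?_
    rw [hXinv, lift_apply hP hPq]
    split_ifs with h <;> simp
  have s3 : ∑ b ∈ range (q * P), χ⁻¹ (b : ZMod q) *
      (ZMod.stdAddChar ((n * b : ℕ) : ZMod (q * P)) : ℂ) =
      (if P ∣ n then (P : ℂ) * χ ((n / P : ℕ) : ZMod q) else 0) *
        gaussSum χ⁻¹ (ZMod.stdAddChar : AddChar (ZMod q) ℂ) := by
    rw [sum_range_mul_add, Finset.sum_comm]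
    have e1 : ∀ i ∈ range q, ∑ k ∈ range P, χ⁻¹ ((q * k + i : ℕ) : ZMod q) *
        (ZMod.stdAddChar ((n * (q * k + i) : ℕ) : ZMod (q * P)) : ℂ) =
        χ⁻¹ (i : ZMod q) * (ZMod.stdAddChar ((n * i : ℕ) : ZMod (q * P)) : ℂ) *
          (if P ∣ n then (P : ℂ) else 0) := by
      intro i _
      rw [← sum_P (q := q) (P := P) n, Finset.mul_sum]
      refine Finset.sum_congr rfl fun k _ => ?_
      have e2 : ((q * k + i : ℕ) : ZMod q) = (i : ZMod q) := by
        push_cast
        rw [ZMod.natCast_self]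
        ring
      have e3 : ((n * (q * k + i) : ℕ) : ZMod (q * P)) =
          ((n * i : ℕ) : ZMod (q * P)) + ((n * (q * k) : ℕ) : ZMod (q * P)) := by
        push_cast
        ring
      rw [e2, e3, AddChar.map_add_eq_mul]
      ring
    rw [Finset.sum_congr rfl e1, ← Finset.sum_mul]
    split_ifs with h
    · obtain ⟨m, rfl⟩ := h
      rw [Nat.mul_div_cancel_left m hP.pos]
      have e4 : ∀ i ∈ range q, χ⁻¹ (i : ZMod q) *
          (ZMod.stdAddChar ((P * m * i : ℕ) : ZMod (q * P)) : ℂ) =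
          χ⁻¹ (i : ZMod q) * (ZMod.stdAddChar ((m * i : ℕ) : ZMod q) : ℂ) := by
        intro i _
        rw [← std_scale (q := q) (P := P) m i]
        congr 2
        congr 1
        ring
      rw [Finset.sum_congr rfl e4, hg m]
      ring
    · simp
  have s4 : ∑ b ∈ (range (q * P)).filter (fun b => P ∣ b), χ⁻¹ (b : ZMod q) *
      (ZMod.stdAddChar ((n * b : ℕ) : ZMod (q * P)) : ℂ) =
      χ⁻¹ (P : ZMod q) * χ (n : ZMod q) * gaussSum χ⁻¹ (ZMod.stdAddChar : AddChar (ZMod q) ℂ) := by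
    have e1 : ∑ b ∈ (range (q * P)).filter (fun b => P ∣ b), χ⁻¹ (b : ZMod q) *
        (ZMod.stdAddChar ((n * b : ℕ) : ZMod (q * P)) : ℂ) =
        ∑ i ∈ range q, χ⁻¹ ((P * i : ℕ) : ZMod q) *
        (ZMod.stdAddChar ((n * (P * i) : ℕ) : ZMod (q * P)) : ℂ) := by
      symm
      refine Finset.sum_bij (fun i _ => P * i) ?_ ?_ ?_ ?_
      · intro i hi
        rw [mem_range] at hi
        rw [mem_filter, mem_range]
        refine ⟨?_, dvd_mul_right _ _⟩
        rw [mul_comm q P]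
        exact Nat.mul_lt_mul_of_pos_left hi hP.pos
      · intro i _ j _ h
        exact Nat.eq_of_mul_eq_mul_left hP.pos h
      · intro b hb
        rw [mem_filter, mem_range] at hb
        obtain ⟨hb1, i, rfl⟩ := hb
        refine ⟨i, ?_, rfl⟩
        rw [mem_range]
        rw [mul_comm q P] at hb1
        exact Nat.lt_of_mul_lt_mul_left hb1
      · intro i _
        rfl
    rw [e1]
    have e2 : ∀ i ∈ range q, χ⁻¹ ((P * i : ℕ) : ZMod q) *
        (ZMod.stdAddChar ((n * (P * i) : ℕ) : ZMod (q * P)) : ℂ) =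
        χ⁻¹ (P : ZMod q) * (χ⁻¹ (i : ZMod q) * (ZMod.stdAddChar ((n * i : ℕ) : ZMod q) : ℂ)) := by
      intro i _
      rw [std_scale]
      push_cast
      rw [map_mul]
      ring
    rw [Finset.sum_congr rfl e2, ← Finset.mul_sum, hg n]
    ring
  rw [s2, s3, s4]
  ring

theorem EE_lift (hP : P.Prime) (hPq : ¬ P ∣ q) {χ : DirichletCharacter ℂ q} (hχ : χ.IsPrimitive)
    (s : ℂ) : EE (changeLevel (dvd_mul_right q P) χ) s =
      -(χ⁻¹ (P : ZMod q) + ((P : ℂ) - 1) * (P : ℂ) ^ (-s)) *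
        gaussSum χ⁻¹ (ZMod.stdAddChar : AddChar (ZMod q) ℂ) := by
  classical
  set G := gaussSum χ⁻¹ (ZMod.stdAddChar : AddChar (ZMod q) ℂ) with hG
  set X := changeLevel (dvd_mul_right q P) χ with hX
  have hP1 : P ≠ 1 := hP.one_lt.ne'
  have hPu : IsUnit (P : ZMod q) := by
    rw [ZMod.isUnit_iff_coprime]
    exact (Nat.Prime.coprime_iff_not_dvd hP).2 hPq
  have hinvmul : χ⁻¹ (P : ZMod q) * χ (P : ZMod q) = 1 := by
    rw [← MulChar.mul_apply, inv_mul_cancel, MulChar.one_apply hPu]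
  have hQ0 : q * P ≠ 0 := NeZero.ne (q * P)
  have hsub : ({1, P} : Finset ℕ) ⊆ (q * P).divisors := by
    intro d hd
    simp only [mem_insert, mem_singleton] at hd
    rcases hd with rfl | rfl
    · exact Nat.one_mem_divisors.2 hQ0
    · exact Nat.mem_divisors.2 ⟨dvd_mul_left d q, hQ0⟩
  have hzero : ∀ d ∈ (q * P).divisors, d ∉ ({1, P} : Finset ℕ) → mu d * cc X d * (d : ℂ) ^ (-s) = 0 := by
    intro d hd hd'
    simp only [mem_insert, mem_singleton, not_or] at hd'
    have hdd := Nat.dvd_of_mem_divisors hd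
    by_cases hsq : Squarefree d
    · have hcc : cc X d = 0 := by
        rw [hX, cc_lift hP hPq hχ]
        have hnu : ∀ e : ℕ, e ∣ q → e ≠ 1 → χ (e : ZMod q) = 0 := by
          intro e he he1
          apply MulChar.map_nonunit
          rw [ZMod.isUnit_iff_coprime]
          intro hc
          exact he1 (Nat.Coprime.eq_one_of_dvd hc he)
        by_cases hPd : P ∣ d
        · obtain ⟨e, rfl⟩ := hPd
          have he : e ∣ q := by
            have : P * e ∣ P * q := by rwa [mul_comm P q]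
            exact Nat.dvd_of_mul_dvd_mul_left hP.pos this
          have he1 : e ≠ 1 := by
            rintro rfl
            exact hd'.2 (mul_one P)
          rw [if_pos (dvd_mul_right P e), Nat.mul_div_cancel_left e hP.pos, hnu e he he1]
          push_cast
          rw [map_mul, hnu e he he1]
          ring
        · have hco : d.Coprime P := ((Nat.Prime.coprime_iff_not_dvd hP).2 hPd).symm
          have he : d ∣ q := hco.dvd_of_dvd_mul_right hdd
          rw [if_neg hPd, hnu d he hd'.1]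
          ring
      rw [hcc]
      ring
    · have : mu d = 0 := by
        unfold mu
        rw [ArithmeticFunction.moebius_eq_zero_of_not_squarefree hsq]
        simp
      rw [this]
      ring
  unfold EE
  rw [← Finset.sum_subset hsub hzero, Finset.sum_pair hP1.symm]
  have c1 : cc X 1 = -(χ⁻¹ (P : ZMod q)) * G := by
    rw [hX, cc_lift hP hPq hχ, if_neg (by
      intro h
      exact hP1 (Nat.dvd_one.1 h))]
    push_cast
    rw [map_one]
    ring
  have cP : cc X P = ((P : ℂ) - 1) * G := by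
    rw [hX, cc_lift hP hPq hχ, if_pos dvd_rfl, Nat.div_self hP.pos]
    rw [hinvmul]
    push_cast
    rw [map_one]
    ring
  have m1 : mu 1 = 1 := by unfold mu; simp
  have mP : mu P = -1 := by
    unfold mu
    rw [ArithmeticFunction.moebius_apply_prime hP]
    simp
  rw [c1, cP, m1, mP]
  simp only [Nat.cast_one, Complex.one_cpow]
  ring

theorem EE_lift_ne (hP : P.Prime) (hPq : ¬ P ∣ q) {χ : DirichletCharacter ℂ q} (hχ : χ.IsPrimitive)
    {s : ℂ} (hs : 2 < (P : ℝ) ^ (1 - s.re)) : EE (changeLevel (dvd_mul_right q P) χ) s ≠ 0 := by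
  rw [EE_lift hP hPq hχ]
  have hinv : (χ⁻¹).IsPrimitive := by
    rw [DirichletCharacter.isPrimitive_def, DirichletCharacter.conductor_inv]
    exact hχ
  have hG : gaussSum χ⁻¹ (ZMod.stdAddChar : AddChar (ZMod q) ℂ) ≠ 0 := by
    intro h
    have h1 := Pool.Agent.Helper112.MLS.norm_gauss q hinv
    rw [h] at h1
    simp only [norm_zero, ne_eq, OfNat.ofNat_ne_zero, not_false_eq_true, zero_pow] at h1
    have : (q : ℝ) ≠ 0 := by exact_mod_cast NeZero.ne q
    exact this h1.symm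
  refine mul_ne_zero (neg_ne_zero.2 fun h => ?_) hG
  have hPpos : (0 : ℝ) < P := by exact_mod_cast hP.pos
  have h1 : ‖((P : ℂ) - 1) * (P : ℂ) ^ (-s)‖ ≤ 1 := by
    have h2 : ((P : ℂ) - 1) * (P : ℂ) ^ (-s) = -(χ⁻¹ (P : ZMod q)) := by
      linear_combination h
    rw [h2, norm_neg]
    exact DirichletCharacter.norm_le_one _ _
  have h3 : ‖((P : ℂ) - 1) * (P : ℂ) ^ (-s)‖ = ((P : ℝ) - 1) * (P : ℝ) ^ (-s.re) := by
    rw [norm_mul]
    congr 1
    · have h4 : ((P : ℂ) - 1) = (((P : ℝ) - 1 : ℝ) : ℂ) := by push_cast; rfl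
      have hP1 : (1 : ℝ) ≤ P := by exact_mod_cast hP.one_lt.le
      rw [h4, Complex.norm_real, Real.norm_eq_abs, abs_of_nonneg (by linarith)]
    · have h5 : ((P : ℕ) : ℂ) = (((P : ℝ)) : ℂ) := by push_cast; rfl
      rw [h5, Complex.norm_cpow_eq_rpow_re_of_pos hPpos, Complex.neg_re]
  rw [h3] at h1
  have h6 : (P : ℝ) * (P : ℝ) ^ (-s.re) = (P : ℝ) ^ (1 - s.re) := by
    rw [sub_eq_add_neg, Real.rpow_add hPpos, Real.rpow_one]
  have hP2 : (2 : ℝ) ≤ P := by exact_mod_cast hP.two_le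
  have h7 : (P : ℝ) / 2 ≤ (P : ℝ) - 1 := by linarith
  have h8 : 0 < (P : ℝ) ^ (-s.re) := Real.rpow_pos_of_pos hPpos _
  have h9 : (P : ℝ) / 2 * (P : ℝ) ^ (-s.re) ≤ ((P : ℝ) - 1) * (P : ℝ) ^ (-s.re) :=
    mul_le_mul_of_nonneg_right h7 h8.le
  have h10 : (P : ℝ) / 2 * (P : ℝ) ^ (-s.re) = (P : ℝ) ^ (1 - s.re) / 2 := by
    rw [← h6]; ring
  linarith

end

end Pool.Agent.T9h54.LZ
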