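import Mathlib

/-!
# Project LZ (MP_b6b996_nt, slot 4): bounds on a short arc and zeros of Dirichlet L-functions

Theorem (final form). Let `7/10 ≤ a < 1` and let `U` be a nonempty open interval. If for every rational
`x ∈ U` there is `C` with `|F_R(x)| ≤ C R^a` for all `R` (no uniformity in `x`), then no Dirichlet
L-function has a zero with real part `> a`. Hence: if some Dirichlet L-function has a zero with real part
`β > 7/10`, then for all `x` outside a meagre set `F_R(x)` is not `O(R^b)` for any `b < β`.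

Proof. `L(ρ, χ₀) = 0`, `χ₀` primitive mod `q`, `Re ρ > a`. Take a large prime `P` such that few characters
modulo `Q = qP` vanish at `ρ` (E1, E2), and the points `j / Q ∈ U`. For `j / Q ∈ U` the Dirichlet series
`D_j(s) = ∑ μ(n) e(nj/Q) n^(-s)` is analytic for `Re s > a`. It is a linear combination
`φ(Q)⁻¹ ∑_χ χ(j) E_χ(s) / L(s, χ)`. The polar part at `ρ` is a nonzero combination of few characters which
vanishes at all `j` of an interval: impossible by Polya-Vinogradov (G).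
-/

set_option autoImplicit false

namespace Pool.Agent.T9h54.LZ

open Finset

/-- (E1) Number of primitive characters of conductor at most `R` whose L-function vanishes at the point `ρ`.
(level `r + 1` for the `NeZero` instance)

Proof. Let `β = Re ρ`. Fix `x` with `1 / (2 (2β-1)) < x < 3 / (8 (1-β))` (possible as `β > 7/10`); let
`N = ⌈R^x⌉`. For `χ` primitive mod `r ≤ R`, `χ ≠ 1` (the level `1` contributes at most `1`), with
`L(ρ, χ) = 0`: by Polya-Vinogradov (`Pool.Agent.H38R2.CG.T_PV`, all nonprincipal characters) and partial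
summation (`Pool.Agent.H370R2...L_integral` in H370R2/DirGood: L as an integral of the character sums)
`∑_{n≤N} χ(n) n^(-ρ) = O(√R log R N^(-β))`. Multiply by `M = ∑_{d≤N} μ(d) χ(d) d^(-ρ)`, `|M| ≤ C N^(1-β)`:
the error is `O(√R log R N^(1-2β)) ≤ 1/2` for large `R`. The product is `1 + ∑_{N<n≤N²} a_n χ(n) n^(-ρ)` with
`a_n = ∑_{d|n, d≤N, n/d≤N} μ(d)`, `|a_n| ≤ τ(n)`. So `1/2 ≤ |∑_{N<n≤N²} a_n χ(n) n^(-ρ)|` for each such `χ`.
Cut into dyadic blocks `(M, 2M]` and use the large sieve (`Pool.Agent.Helper112.mult_large_sieve`):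
the number is at most `R^ε ∑_M (M + R²) M^(1-2β) ≤ R^ε (R² N^(1-2β) + N^(4(1-β)))`, and
`2 - x(2β-1) < 3/2`, `4x(1-β) < 3/2`. Divisor bound: `Pool.Agent.Helper112.divisor_bound`. -/
def S_E1 : Prop := ∀ ρ : ℂ, 7 / 10 < ρ.re → ρ.re < 1 → ∃ δ : ℝ, 0 < δ ∧ ∃ C : ℝ, ∀ R : ℕ, 1 ≤ R →
  ∑ r ∈ range R, (Set.ncard {χ : DirichletCharacter ℂ (r + 1) |
    χ.IsPrimitive ∧ DirichletCharacter.LFunction χ ρ = 0} : ℝ) ≤ C * (R : ℝ) ^ (3 / 2 - δ)

/-- (E2) A prime `P` with few characters modulo `q P` vanishing at `ρ`.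

Proof from (E1). A character `χ` mod `qP` with `L(ρ, χ) = 0` is induced by a primitive `χ*` mod `r`,
`r | qP`, with `L(ρ, χ*) = 0` (`DirichletCharacter.LFunction_changeLevel`; `|χ(p) p^(-ρ)| < 1`). At most `φ(q)`
of them have `P ∤ r`. The pairs `(P, χ)`, `P` prime in `(Y, 2Y]`, `P ∤ q`, `P > q`, with `P | r` are mapped
injectively to the primitive characters of conductor `≤ 2qY`. If the number of `χ` were `> P^(1/2-δ')` for
all primes `P > K`, then `∑_P P^(-1)` would converge (`Nat.Primes.not_summable_one_div` or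
`not_summable_one_div_on_primes`), with `δ' = δ/4`. -/
def S_E2 : Prop := ∀ (q : ℕ) [NeZero q] (ρ : ℂ), 7 / 10 < ρ.re → ρ.re < 1 → ∃ δ : ℝ, 0 < δ ∧ ∀ K : ℕ,
  ∃ P : ℕ, P.Prime ∧ K < P ∧ ¬ P ∣ q ∧ ∀ [NeZero (q * P)],
    (Set.ncard {χ : DirichletCharacter ℂ (q * P) | DirichletCharacter.LFunction χ ρ = 0} : ℝ) ≤
      (P : ℝ) ^ (1 / 2 - δ)

/-- (G) Few characters modulo `Q = qP` are linearly independent on the `j` prime to `Q` with `j/Q` in an
interval.

Proof. `0 = ∑_j |∑_χ g(χ) χ(j)|² ≥ (∑ |g|²) (N_J - (card B) C √Q log Q)` where `N_J` is the number of `j`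
(at least `c(α, β, q) Q`: take `j ≡ 1 mod q`, `P ∤ j`), and the sums of `χ χ'⁻¹ ≠ 1` over `j` in an interval
are at most `C √Q log Q` (`Pool.Agent.H38R2.CG.T_PV`). -/
def S_G : Prop := ∀ (q : ℕ) [NeZero q] (α β : ℝ), 0 ≤ α → α < β → β ≤ 1 → ∀ δ : ℝ, 0 < δ → ∃ K : ℕ,
  ∀ P : ℕ, P.Prime → K < P → ∀ B : Finset (DirichletCharacter ℂ (q * P)),
    (B.card : ℝ) ≤ (P : ℝ) ^ (1 / 2 - δ) → ∀ g : DirichletCharacter ℂ (q * P) → ℂ,
    (∀ j : ℕ, j.Coprime (q * P) → α < (j : ℝ) / ((q * P : ℕ) : ℝ) → (j : ℝ) / ((q * P : ℕ) : ℝ) < β →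
      ∑ χ ∈ B, g χ * χ (j : ZMod (q * P)) = 0) → ∀ χ ∈ B, g χ = 0

end Pool.Agent.T9h54.LZ
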