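import Pool.Agent.T9h54.LZ.Fin
import Pool.Agent.T9h75.LZ.G
import Pool.Agent.T9h51.LZ.M1
import Pool.Agent.T9h53.LZ.M3

/-!
# Project LZ: the final statements, from (E1) and (M2)
-/

set_option autoImplicit false

namespace Pool.Agent.T9h54.LZ

open Finset Filter Topology DirichletCharacter

/-- the growth exponent of `F_R(x)` at the point `x` is at most `a` -/
def GrowthAt (a x : ℝ) : Prop := ∀ ε : ℝ, 0 < ε → ∃ C : ℝ, ∀ R : ℕ, 1 ≤ R →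
  ‖F R x‖ ≤ C * (R : ℝ) ^ (a + ε)

theorem top1 (hE2 : S_E2) (hG : S_G) {a : ℝ} (ha : 7 / 10 ≤ a) {α β : ℝ}
    (hαβ : α < β) (h : ∀ x : ℚ, α < x → (x : ℝ) < β → GrowthAt a x) : ZeroFree a := by
  intro q _ χ s hs hs1 h0
  by_cases hs2 : s.re < 1
  · set a' : ℝ := (a + s.re) / 2 with ha'
    have h1 : 7 / 10 ≤ a' := by rw [ha']; linarith
    have h2 : a' < 1 := by rw [ha']; linarith
    have h3 : a < a' := by rw [ha']; linarith
    have h4 : a' < s.re := by rw [ha']; linarith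
    refine main1 hE2 hG h1 h2 hαβ (fun x hx1 hx2 => ?_) q χ s h4 hs1 h0
    obtain ⟨C, hC⟩ := h x hx1 hx2 (a' - a) (by linarith)
    refine ⟨C, fun R hR => ?_⟩
    have := hC R hR
    rwa [add_sub_cancel] at this
  · exact LFunction_ne_zero_of_one_le_re χ (Or.inr hs1) (not_lt.1 hs2) h0

theorem freq_of {x b : ℝ} (hb : 0 ≤ b) (h : ∀ C : ℝ, ∃ R : ℕ, 1 ≤ R ∧ C * (R : ℝ) ^ b < ‖F R x‖)
    (C : ℝ) : ∃ᶠ R : ℕ in atTop, C * (R : ℝ) ^ b < ‖F R x‖ := by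
  rw [Filter.frequently_atTop]
  intro N
  set C' : ℝ := max C (∑ R ∈ range N, ‖F R x‖) with hC'
  have hC0 : 0 ≤ C' := le_trans (Finset.sum_nonneg fun _ _ => norm_nonneg _) (le_max_right _ _)
  obtain ⟨R, hR, hlt⟩ := h C'
  have hR1 : (1 : ℝ) ≤ R := by exact_mod_cast hR
  refine ⟨R, ?_, lt_of_le_of_lt ?_ hlt⟩
  · by_contra hc
    push Not at hc
    have h1 : ‖F R x‖ ≤ C' :=
      le_trans (Finset.single_le_sum (f := fun R => ‖F R x‖) (fun _ _ => norm_nonneg _)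
        (mem_range.2 hc)) (le_max_right _ _)
    have h2 : C' ≤ C' * (R : ℝ) ^ b :=
      le_mul_of_one_le_right hC0 (Real.one_le_rpow hR1 hb)
    linarith
  · exact mul_le_mul_of_nonneg_right (le_max_left _ _) (Real.rpow_nonneg (by linarith) _)

theorem top2 (hE2 : S_E2) (hG : S_G) : ∀ᶠ x in residual ℝ, ∀ (q : ℕ) [NeZero q]
    (χ : DirichletCharacter ℂ q) (s : ℂ), 7 / 10 < s.re → s ≠ 1 → LFunction χ s = 0 →
    ∀ b : ℝ, b < s.re → ∀ C : ℝ, ∃ᶠ R : ℕ in atTop, C * (R : ℝ) ^ b < ‖F R x‖ := by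
  have h1 : ∀ b : ℚ, ∀ᶠ x in residual ℝ, 7 / 10 ≤ (b : ℝ) → (b : ℝ) < 1 → ¬ ZeroFree b →
      ∀ C : ℝ, ∃ R : ℕ, 1 ≤ R ∧ C * (R : ℝ) ^ (b : ℝ) < ‖F R x‖ := by
    intro b
    by_cases hb : 7 / 10 ≤ (b : ℝ) ∧ (b : ℝ) < 1 ∧ ¬ ZeroFree b
    · filter_upwards [generic hE2 hG hb.1 hb.2.1 hb.2.2] with x hx _ _ _
      exact hx
    · exact Eventually.of_forall fun x h1 h2 h3 => absurd ⟨h1, h2, h3⟩ hb
  filter_upwards [eventually_countable_forall.2 h1] with x hx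
  intro q _ χ s hs hs1 h0 b hb C
  have hs2 : s.re < 1 := by
    by_contra hc
    exact LFunction_ne_zero_of_one_le_re χ (Or.inr hs1) (not_lt.1 hc) h0
  obtain ⟨b', hb1, hb2⟩ := exists_rat_btwn (max_lt hb hs)
  have hb3 : b < (b' : ℝ) := lt_of_le_of_lt (le_max_left _ _) hb1
  have hb4 : 7 / 10 < (b' : ℝ) := lt_of_le_of_lt (le_max_right _ _) hb1
  have h2 := freq_of (x := x) (b := (b' : ℝ)) (by linarith)
    (hx b' hb4.le (by linarith) fun hz => hz q χ s hb2 hs1 h0) (max C 0)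
  refine (h2.and_eventually (eventually_ge_atTop 1)).mono fun R ⟨hR, hR1⟩ => lt_of_le_of_lt ?_ hR
  have hR2 : (1 : ℝ) ≤ R := by exact_mod_cast hR1
  exact mul_le_mul (le_max_left _ _) (Real.rpow_le_rpow_of_exponent_le hR2 hb3.le)
    (Real.rpow_nonneg (by linarith) _) (le_max_right _ _)

theorem saving_of_uniform (h : Uniform) (x : ℝ) : Saving x := by
  obtain ⟨δ, hδ, C, hC⟩ := h
  exact ⟨δ, hδ, C, fun R hR => hC R x hR⟩

theorem top3 (hE2 : S_E2) (hG : S_G) (hM1 : S_M1) (hM2 : S_M2) {U : Set ℝ} (hU : IsOpen U)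
    (hne : U.Nonempty) :
    List.TFAE [∀ x ∈ U, Saving x, Uniform, ∃ a : ℝ, a < 1 ∧ ZeroFree a] := by
  tfae_have 1 → 3 := fun h => main2 hE2 hG hU hne h
  tfae_have 3 → 2 := fun h => Pool.Agent.T9h53.LZ.m3 hM1 hM2 h
  tfae_have 2 → 1 := fun h x _ => saving_of_uniform h x
  tfae_finish

theorem top4 (hE2 : S_E2) (hG : S_G) (hM1 : S_M1) (hM2 : S_M2) :
    Uniform ∨ ∀ᶠ x in residual ℝ, ¬ Saving x := by
  by_cases h : ∃ a : ℝ, a < 1 ∧ ZeroFree a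
  · exact Or.inl (Pool.Agent.T9h53.LZ.m3 hM1 hM2 h)
  · exact Or.inr (generic2 hE2 hG h)

/-- everything from (E1) and (M2) -/
theorem topOf (hE1 : S_E1) (hM2 : S_M2) :
    (∀ a : ℝ, 7 / 10 ≤ a → ∀ α β : ℝ, α < β →
      (∀ x : ℚ, α < x → (x : ℝ) < β → GrowthAt a x) → ZeroFree a) ∧
    (∀ᶠ x in residual ℝ, ∀ (q : ℕ) [NeZero q] (χ : DirichletCharacter ℂ q) (s : ℂ),
      7 / 10 < s.re → s ≠ 1 → LFunction χ s = 0 →
      ∀ b : ℝ, b < s.re → ∀ C : ℝ, ∃ᶠ R : ℕ in atTop, C * (R : ℝ) ^ b < ‖F R x‖) ∧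
    (∀ U : Set ℝ, IsOpen U → U.Nonempty →
      List.TFAE [∀ x ∈ U, Saving x, Uniform, ∃ a : ℝ, a < 1 ∧ ZeroFree a]) ∧
    (Uniform ∨ ∀ᶠ x in residual ℝ, ¬ Saving x) := by
  have hE2 : S_E2 := Pool.Agent.T9h65.LZ.e2 hE1
  have hG : S_G := Pool.Agent.T9h75.LZ.g
  have hM1 : S_M1 := Pool.Agent.T9h51.LZ.m1
  exact ⟨fun a ha α β hαβ h => top1 hE2 hG ha hαβ h, top2 hE2 hG,
    fun U hU hne => top3 hE2 hG hM1 hM2 hU hne, top4 hE2 hG hM1 hM2⟩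

end Pool.Agent.T9h54.LZ
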