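import Pool.Agent.T9h54.LZ.V

/-!
# Project LZ: bounds for the partial sums give an analytic continuation
-/

set_option autoImplicit false

namespace Pool.Agent.T9h54.LZ

open Finset Filter Topology MeasureTheory

/-- the summatory function -/
noncomputable def Sx (f : ℕ → ℂ) (v : ℝ) : ℂ := ∑ n ∈ Icc 1 ⌊v⌋₊, f n

theorem Sx_of_lt_one (f : ℕ → ℂ) {v : ℝ} (hv : v < 1) : Sx f v = 0 := by
  unfold Sx
  have h : ⌊v⌋₊ = 0 := Nat.floor_eq_zero.2 hv
  rw [h]
  simp

theorem measurable_Sx (f : ℕ → ℂ) : Measurable (Sx f) := by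
  unfold Sx
  exact (measurable_from_nat (f := fun m : ℕ => ∑ n ∈ Icc 1 m, f n)).comp
    Nat.measurable_floor

variable {f : ℕ → ℂ} {a C : ℝ}

theorem Sx_bound (ha : 0 ≤ a) (hC : ∀ R : ℕ, 1 ≤ R → ‖∑ n ∈ Icc 1 R, f n‖ ≤ C * (R : ℝ) ^ a) :
    0 ≤ C ∧ ∀ v : ℝ, 1 ≤ v → ‖Sx f v‖ ≤ C * v ^ a := by
  have hC0 : 0 ≤ C := by
    have h := hC 1 le_rfl
    simp only [Nat.cast_one, Real.one_rpow, mul_one] at h
    exact (norm_nonneg _).trans h
  refine ⟨hC0, fun v hv => ?_⟩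
  have h1 : 1 ≤ ⌊v⌋₊ := Nat.le_floor (by simpa using hv)
  refine (hC ⌊v⌋₊ h1).trans (mul_le_mul_of_nonneg_left ?_ hC0)
  exact Real.rpow_le_rpow (Nat.cast_nonneg _) (Nat.floor_le (by linarith)) ha

theorem locInt (ha : 0 ≤ a) (hC : ∀ R : ℕ, 1 ≤ R → ‖∑ n ∈ Icc 1 R, f n‖ ≤ C * (R : ℝ) ^ a) :
    LocallyIntegrableOn (Sx f) (Set.Ioi 0) := by
  obtain ⟨hC0, hB⟩ := Sx_bound ha hC
  rw [locallyIntegrableOn_iff isOpen_Ioi.isLocallyClosed]
  intro K hK hKc
  obtain ⟨R, hR⟩ := hKc.isBounded.subset_closedBall 0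
  refine Measure.integrableOn_of_bounded (M := C * (max R 1) ^ a) hKc.measure_lt_top.ne
    (measurable_Sx f).aestronglyMeasurable ?_
  refine (ae_restrict_iff' hKc.measurableSet).2 (Eventually.of_forall ?_)
  intro v hv
  rcases lt_or_ge v 1 with h | h
  · rw [Sx_of_lt_one f h, norm_zero]; positivity
  · refine (hB v h).trans ?_
    refine mul_le_mul_of_nonneg_left (Real.rpow_le_rpow (by linarith) ?_ ha) hC0
    have h1 := hR hv
    rw [Metric.mem_closedBall, dist_zero_right, Real.norm_eq_abs] at h1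
    exact (le_abs_self v).trans (h1.trans (le_max_left _ _))

theorem mellin_Sx (f : ℕ → ℂ) (s : ℂ) :
    mellin (Sx f) (-s) = ∫ v in Set.Ioi (1 : ℝ), Sx f v * (v : ℂ) ^ (-(s + 1)) := by
  unfold mellin
  have h1 : ∫ t in Set.Ioi (0 : ℝ), (t : ℂ) ^ (-s - 1) • Sx f t =
      ∫ t in Set.Ici (1 : ℝ), (t : ℂ) ^ (-s - 1) • Sx f t := by
    apply setIntegral_eq_of_subset_of_forall_sdiff_eq_zero measurableSet_Ioi
    · intro x hx
      have hx1 : (1 : ℝ) ≤ x := hx
      exact lt_of_lt_of_le one_pos hx1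
    · intro x hx
      have : x < 1 := by
        have := hx.2
        simpa using this
      rw [Sx_of_lt_one f this, smul_zero]
  rw [h1, integral_Ici_eq_integral_Ioi]
  congr 1
  funext t
  rw [smul_eq_mul, mul_comm]
  congr 2
  ring

theorem diff_Sx (ha : 0 ≤ a) (hC : ∀ R : ℕ, 1 ≤ R → ‖∑ n ∈ Icc 1 R, f n‖ ≤ C * (R : ℝ) ^ a) :
    DifferentiableOn ℂ
      (fun s : ℂ => s * ∫ v in Set.Ioi (1 : ℝ), Sx f v * (v : ℂ) ^ (-(s + 1)))
      {s : ℂ | a < s.re} := by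
  obtain ⟨hC0, hB⟩ := Sx_bound ha hC
  have h1 : (fun s : ℂ => s * ∫ v in Set.Ioi (1 : ℝ), Sx f v * (v : ℂ) ^ (-(s + 1))) =
      fun s : ℂ => s * mellin (Sx f) (-s) := by
    funext s; rw [mellin_Sx]
  rw [h1]
  intro s hs
  have hs' : a < s.re := hs
  apply DifferentiableAt.differentiableWithinAt
  refine differentiableAt_id.mul ?_
  have h2 : DifferentiableAt ℂ (mellin (Sx f)) (-s) := by
    apply mellin_differentiableAt_of_isBigO_rpow (a := -a) (b := (-s).re - 1)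
      (locInt ha hC)
    · refine Asymptotics.IsBigO.of_bound C ?_
      filter_upwards [eventually_ge_atTop (1 : ℝ)] with v hv
      refine (hB v hv).trans (le_of_eq ?_)
      rw [Real.norm_of_nonneg (Real.rpow_nonneg (by linarith) _)]
      norm_num
    · rw [Complex.neg_re]; linarith
    · refine Asymptotics.IsBigO.of_bound 1 ?_
      have : Set.Iio (1 : ℝ) ∈ 𝓝[>] (0 : ℝ) :=
        mem_nhdsWithin_of_mem_nhds (Iio_mem_nhds one_pos)
      filter_upwards [this] with v hv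
      rw [Sx_of_lt_one f hv, norm_zero, one_mul]
      exact norm_nonneg _
    · linarith
  exact DifferentiableAt.comp (g := mellin (Sx f)) (f := fun s : ℂ => -s) s h2 differentiableAt_id.neg

/-- **Analytic continuation** of a Dirichlet series with partial sums `O(R^a)`. -/
theorem cont (ha : 0 ≤ a) {m : ℝ} (hf : ∀ n, ‖f n‖ ≤ m)
    (hC : ∀ R : ℕ, 1 ≤ R → ‖∑ n ∈ Icc 1 R, f n‖ ≤ C * (R : ℝ) ^ a) :
    ∃ A : ℂ → ℂ, DifferentiableOn ℂ A {s : ℂ | a < s.re} ∧
      ∀ s : ℂ, a < s.re → 1 < s.re → A s = LSeries f s := by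
  refine ⟨_, diff_Sx ha hC, fun s has hs => ?_⟩
  have hsum : LSeriesSummable f s := summable_bdd hf hs
  have h2 := LSeries_eq_mul_integral f (r := a) ha (s := s) has hsum ?_
  · rw [h2]
    congr 1
  · refine Asymptotics.IsBigO.of_bound C ?_
    filter_upwards [eventually_ge_atTop 1] with n hn
    refine (hC n hn).trans (le_of_eq ?_)
    rw [Real.norm_of_nonneg (Real.rpow_nonneg (Nat.cast_nonneg _) _)]

end Pool.Agent.T9h54.LZ
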