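import Pool.Agent.T9h54.LZ.Cont

/-!
# Project LZ: the polar part at a zero
-/

set_option autoImplicit false

namespace Pool.Agent.T9h54.LZ

open Finset Filter Topology DirichletCharacter

variable {Q : ℕ} [NeZero Q]

open Classical in
/-- the entire function `L(s, χ)`, multiplied by `s - 1` for the principal character -/
noncomputable def Lt (χ : DirichletCharacter ℂ Q) (s : ℂ) : ℂ :=
  if χ = 1 then LFunctionTrivChar₁ Q s else LFunction χ s

open Classical in
/-- the factor `s - 1` for the principal character -/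
noncomputable def ww (χ : DirichletCharacter ℂ Q) (s : ℂ) : ℂ := if χ = 1 then s - 1 else 1

theorem Lt_diff (χ : DirichletCharacter ℂ Q) : Differentiable ℂ (Lt χ) := by
  unfold Lt
  by_cases h : χ = 1
  · simp only [if_pos h]
    exact differentiable_LFunctionTrivChar₁ Q
  · simp only [if_neg h]
    exact differentiable_LFunction h

theorem ww_diff (χ : DirichletCharacter ℂ Q) : Differentiable ℂ (ww χ) := by
  unfold ww
  by_cases h : χ = 1
  · simp only [if_pos h]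
    fun_prop
  · simp only [if_neg h]
    fun_prop

theorem Lt_eq (χ : DirichletCharacter ℂ Q) {s : ℂ} (hs : s ≠ 1) :
    Lt χ s = ww χ s * LFunction χ s := by
  unfold Lt ww
  by_cases h : χ = 1
  · rw [if_pos h, if_pos h, h]
    simp [LFunctionTrivChar₁, Function.update_of_ne hs]
  · rw [if_neg h, if_neg h, one_mul]

theorem ww_ne {s : ℂ} (hs : s ≠ 1) (χ : DirichletCharacter ℂ Q) : ww χ s ≠ 0 := by
  unfold ww
  by_cases h : χ = 1
  · rw [if_pos h]; exact sub_ne_zero.2 hs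
  · rw [if_neg h]; exact one_ne_zero

theorem Lt_two (χ : DirichletCharacter ℂ Q) : Lt χ 2 ≠ 0 := by
  have h2 : (2 : ℂ) ≠ 1 := by norm_num
  rw [Lt_eq χ h2]
  refine mul_ne_zero (ww_ne h2 χ) ?_
  exact LFunction_ne_zero_of_one_le_re χ (Or.inr h2) (by norm_num)

theorem EE_diff (χ : DirichletCharacter ℂ Q) : Differentiable ℂ (EE χ) := by
  unfold EE
  refine Differentiable.fun_sum fun d hd => ?_
  have hd0 : (d : ℂ) ≠ 0 := by
    exact_mod_cast (Nat.pos_of_mem_divisors hd).ne'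
  intro s
  refine (differentiableAt_const _).mul ?_
  exact DifferentiableAt.const_cpow differentiableAt_id.neg (Or.inl hd0)

/-- near `ρ` there are no other zeros -/
theorem ev_ne (χ : DirichletCharacter ℂ Q) (ρ : ℂ) : ∀ᶠ s in 𝓝[≠] ρ, Lt χ s ≠ 0 := by
  have han : AnalyticOnNhd ℂ (Lt χ) Set.univ := (Lt_diff χ).differentiableOn.analyticOnNhd isOpen_univ
  rcases (han ρ (Set.mem_univ _)).eventually_eq_zero_or_eventually_ne_zero with h | h
  · exfalso
    have h2 : Set.EqOn (Lt χ) 0 Set.univ := by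
      refine han.eqOn_of_preconnected_of_eventuallyEq analyticOnNhd_const isPreconnected_univ
        (Set.mem_univ ρ) ?_
      exact h
    exact Lt_two χ (h2 (Set.mem_univ 2))
  · exact h

/-- The identity for the continuation. -/
theorem ident {a : ℝ} (ha : 0 ≤ a) (ha1 : a < 1) (b : (ZMod Q)ˣ) {C : ℝ}
    (hC : ∀ R : ℕ, 1 ≤ R → ‖∑ n ∈ Icc 1 R, mu n * ad (b : ZMod Q) n‖ ≤ C * (R : ℝ) ^ a) :
    ∃ A : ℂ → ℂ, DifferentiableOn ℂ A {s : ℂ | a < s.re} ∧ ∀ s : ℂ, a < s.re → s ≠ 1 →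
      (∀ χ : DirichletCharacter ℂ Q, LFunction χ s ≠ 0) →
      (Q.totient : ℂ) * A s = ∑ χ : DirichletCharacter ℂ Q, χ (b : ZMod Q) *
        (EE χ s / LFunction χ s) := by
  classical
  obtain ⟨A, hA, hA1⟩ := cont (f := fun n => mu n * ad (b : ZMod Q) n) ha (m := 1) (fun n => by
    rw [norm_mul, norm_ad, mul_one]; exact norm_mu_le n) hC
  have hUo : IsOpen {s : ℂ | a < s.re} := isOpen_lt continuous_const Complex.continuous_re
  have hUc : IsPreconnected {s : ℂ | a < s.re} := (convex_halfSpace_re_gt a).isPreconnected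
  have key : Set.EqOn (fun s => (Q.totient : ℂ) * A s * ∏ χ : DirichletCharacter ℂ Q, Lt χ s)
      (fun s => ∑ χ : DirichletCharacter ℂ Q, χ (b : ZMod Q) * (EE χ s * ww χ s *
        ∏ χ' ∈ univ.erase χ, Lt χ' s)) {s : ℂ | a < s.re} := by
    refine AnalyticOnNhd.eqOn_of_preconnected_of_eventuallyEq (z₀ := 2)
      (DifferentiableOn.analyticOnNhd ?_ hUo) (DifferentiableOn.analyticOnNhd ?_ hUo) hUc ?_ ?_
    · refine ((differentiableOn_const _).mul hA).mul ?_
      exact (Differentiable.fun_finsetProd fun χ _ => Lt_diff χ).differentiableOn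
    · refine (Differentiable.fun_sum fun χ _ => ?_).differentiableOn
      refine (differentiable_const _).mul ?_
      refine ((EE_diff χ).mul (ww_diff χ)).mul ?_
      exact Differentiable.fun_finsetProd fun χ _ => Lt_diff χ
    · show a < (2 : ℂ).re
      norm_num
      linarith
    · have hopen : IsOpen {s : ℂ | 1 < s.re} := isOpen_lt continuous_const Complex.continuous_re
      filter_upwards [hopen.mem_nhds (show (2 : ℂ) ∈ {s : ℂ | 1 < s.re} by
        show (1 : ℝ) < (2 : ℂ).re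
        norm_num)] with s hs
      have hs1 : (1 : ℝ) < s.re := hs
      have hsne : s ≠ 1 := by
        rintro rfl
        norm_num at hs1
      rw [hA1 s (by linarith) hs1, LSeries_mu_ad b hs1, Finset.sum_mul]
      refine Finset.sum_congr rfl fun χ _ => ?_
      have h1 := LSeries_mu_cc χ hs1
      have h2 : ∏ χ : DirichletCharacter ℂ Q, Lt χ s = Lt χ s * ∏ χ' ∈ univ.erase χ, Lt χ' s :=
        (Finset.mul_prod_erase univ (fun χ => Lt χ s) (mem_univ χ)).symm
      rw [h2, Lt_eq χ hsne, ← h1]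
      ring
  refine ⟨A, hA, fun s hs hs1 hne => ?_⟩
  have h := key hs
  simp only at h
  have hZ : ∏ χ : DirichletCharacter ℂ Q, Lt χ s ≠ 0 := by
    refine Finset.prod_ne_zero_iff.2 fun χ _ => ?_
    rw [Lt_eq χ hs1]
    exact mul_ne_zero (ww_ne hs1 χ) (hne χ)
  have h3 : ∑ χ : DirichletCharacter ℂ Q, χ (b : ZMod Q) * (EE χ s * ww χ s *
        ∏ χ' ∈ univ.erase χ, Lt χ' s) = (∑ χ : DirichletCharacter ℂ Q, χ (b : ZMod Q) *
        (EE χ s / LFunction χ s)) * ∏ χ : DirichletCharacter ℂ Q, Lt χ s := by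
    rw [Finset.sum_mul]
    refine Finset.sum_congr rfl fun χ _ => ?_
    have h2 : ∏ χ : DirichletCharacter ℂ Q, Lt χ s = Lt χ s * ∏ χ' ∈ univ.erase χ, Lt χ' s :=
      (Finset.mul_prod_erase univ (fun χ => Lt χ s) (mem_univ χ)).symm
    rw [h2, Lt_eq χ hs1]
    have := hne χ
    field_simp
  rw [h3] at h
  exact mul_right_cancel₀ hZ h

/-- **The polar part.** -/
theorem pole {a : ℝ} (ha : 0 ≤ a) (ha1 : a < 1) {ρ : ℂ} (haρ : a < ρ.re) (hρ : ρ ≠ 1)
    (J : Set (ZMod Q)ˣ) (hJ : ∀ b ∈ J, ∃ C : ℝ, ∀ R : ℕ, 1 ≤ R →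
      ‖∑ n ∈ Icc 1 R, mu n * ad (b : ZMod Q) n‖ ≤ C * (R : ℝ) ^ a)
    (χ₀ : DirichletCharacter ℂ Q) (h0 : LFunction χ₀ ρ = 0) (hE : EE χ₀ ρ ≠ 0) :
    ∃ g : DirichletCharacter ℂ Q → ℂ, (∃ χ, g χ ≠ 0) ∧ (∀ χ, LFunction χ ρ ≠ 0 → g χ = 0) ∧
      ∀ b ∈ J, ∑ χ : DirichletCharacter ℂ Q, g χ * χ (b : ZMod Q) = 0 := by
  classical
  -- the sequence
  obtain ⟨sq, hsq⟩ : ∃ sq : ℕ → ℂ, sq = fun k : ℕ => ρ + ((1 / ((k : ℝ) + 1) : ℝ) : ℂ) := ⟨_, rfl⟩
  have hlim0 : Tendsto sq atTop (𝓝 ρ) := by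
    rw [hsq]
    have h1 : Tendsto (fun k : ℕ => ((1 / ((k : ℝ) + 1) : ℝ) : ℂ)) atTop (𝓝 ((0 : ℝ) : ℂ)) :=
      (Complex.continuous_ofReal.tendsto 0).comp tendsto_one_div_add_atTop_nhds_zero_nat
    have h2 := h1.const_add ρ
    simpa using h2
  have hsne : ∀ k, sq k ≠ ρ := by
    intro k h
    rw [hsq] at h
    simp only [add_eq_left] at h
    have h3 : (1 / ((k : ℝ) + 1) : ℝ) = 0 := by exact_mod_cast h
    have : (0 : ℝ) < 1 / ((k : ℝ) + 1) := by positivity
    linarith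
  have hlim : Tendsto sq atTop (𝓝[≠] ρ) :=
    tendsto_nhdsWithin_iff.2 ⟨hlim0, Eventually.of_forall hsne⟩
  have hev1 : ∀ᶠ k in atTop, sq k ≠ 1 := hlim0.eventually_ne hρ
  have hevre : ∀ᶠ k in atTop, a < (sq k).re :=
    hlim0.eventually ((isOpen_lt continuous_const Complex.continuous_re).mem_nhds haρ)
  have hevL : ∀ᶠ k in atTop, ∀ χ : DirichletCharacter ℂ Q, LFunction χ (sq k) ≠ 0 := by
    rw [eventually_all]
    intro χ
    filter_upwards [hlim.eventually (ev_ne χ ρ), hev1] with k hk hk1 h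
    apply hk
    rw [Lt_eq χ hk1, h, mul_zero]
  -- the functions
  obtain ⟨h, hh⟩ : ∃ h : ℕ → DirichletCharacter ℂ Q → ℂ,
      h = fun k χ => EE χ (sq k) / LFunction χ (sq k) := ⟨_, rfl⟩
  have hLc : ∀ χ : DirichletCharacter ℂ Q, Tendsto (fun k => LFunction χ (sq k)) atTop
      (𝓝 (LFunction χ ρ)) := fun χ =>
    (differentiableAt_LFunction χ ρ (Or.inl hρ)).continuousAt.tendsto.comp hlim0
  have hEc : ∀ χ : DirichletCharacter ℂ Q, Tendsto (fun k => EE χ (sq k)) atTop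
      (𝓝 (EE χ ρ)) := fun χ => ((EE_diff χ).continuous.tendsto ρ).comp hlim0
  have hinf : Tendsto (fun k => ‖h k χ₀‖) atTop atTop := by
    rw [hh]
    simp only [norm_div]
    have e1 : Tendsto (fun k => ‖LFunction χ₀ (sq k)‖) atTop (𝓝[>] 0) := by
      refine tendsto_nhdsWithin_iff.2 ⟨?_, ?_⟩
      · have := (hLc χ₀).norm
        rwa [h0, norm_zero] at this
      · filter_upwards [hevL] with k hk
        exact norm_pos_iff.2 (hk χ₀)
    have e2 : Tendsto (fun k => (‖LFunction χ₀ (sq k)‖)⁻¹) atTop atTop :=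
      tendsto_inv_nhdsGT_zero.comp e1
    have e3 := (hEc χ₀).norm
    have := Tendsto.pos_mul_atTop (norm_pos_iff.2 hE) e3 e2
    simpa [div_eq_mul_inv] using this
  obtain ⟨H, hH⟩ : ∃ H : ℕ → ℝ, H = fun k => ∑ χ : DirichletCharacter ℂ Q, ‖h k χ‖ := ⟨_, rfl⟩
  have hHle : ∀ k χ, ‖h k χ‖ ≤ H k := by
    intro k χ
    rw [hH]
    exact Finset.single_le_sum (f := fun χ => ‖h k χ‖) (fun _ _ => norm_nonneg _) (mem_univ χ)
  have hHinf : Tendsto H atTop atTop := tendsto_atTop_mono (fun k => hHle k χ₀) hinf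
  have hHpos : ∀ᶠ k in atTop, 0 < H k := hHinf.eventually_gt_atTop 0
  have hHc : Tendsto (fun k => ((H k : ℝ) : ℂ)⁻¹) atTop (𝓝 0) := by
    have e1 : Tendsto (fun k => (H k)⁻¹) atTop (𝓝 0) := tendsto_inv_atTop_zero.comp hHinf
    have e2 := (Complex.continuous_ofReal.tendsto 0).comp e1
    simp only [Complex.ofReal_zero] at e2
    refine e2.congr fun k => ?_
    simp
  -- the unit vectors
  obtain ⟨u, hu⟩ : ∃ u : ℕ → DirichletCharacter ℂ Q → ℂ,
      u = fun k χ => h k χ * ((H k : ℝ) : ℂ)⁻¹ := ⟨_, rfl⟩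
  have huB : ∀ k, u k ∈ Metric.closedBall (0 : DirichletCharacter ℂ Q → ℂ) 1 := by
    intro k
    rw [mem_closedBall_zero_iff, pi_norm_le_iff_of_nonneg zero_le_one]
    intro χ
    rw [hu]
    simp only
    rw [norm_mul, norm_inv, Complex.norm_real, Real.norm_eq_abs]
    have hH0 : 0 ≤ H k := (norm_nonneg _).trans (hHle k χ)
    rw [abs_of_nonneg hH0]
    rcases eq_or_lt_of_le hH0 with h' | h'
    · rw [← h', inv_zero, mul_zero]
      exact zero_le_one
    · rw [mul_inv_le_iff₀ h', one_mul]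
      exact hHle k χ
  obtain ⟨g, -, φ, hφ, hg⟩ := (isCompact_closedBall (0 : DirichletCharacter ℂ Q → ℂ) 1).tendsto_subseq huB
  have hφt : Tendsto φ atTop atTop := hφ.tendsto_atTop
  have hgχ : ∀ χ, Tendsto (fun k => u (φ k) χ) atTop (𝓝 (g χ)) := fun χ =>
    (tendsto_pi_nhds.1 hg) χ
  refine ⟨g, ?_, ?_, ?_⟩
  · by_contra hc
    push Not at hc
    have e1 : Tendsto (fun k => ∑ χ : DirichletCharacter ℂ Q, ‖u (φ k) χ‖) atTop
        (𝓝 (∑ χ : DirichletCharacter ℂ Q, ‖g χ‖)) :=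
      tendsto_finset_sum _ fun χ _ => (hgχ χ).norm
    have e2 : ∀ᶠ k in atTop, ∑ χ : DirichletCharacter ℂ Q, ‖u (φ k) χ‖ = 1 := by
      filter_upwards [hφt.eventually hHpos] with k hk
      rw [hu]
      simp only [norm_mul, norm_inv, Complex.norm_real, Real.norm_eq_abs]
      rw [← Finset.sum_mul, abs_of_pos hk]
      have : ∑ χ : DirichletCharacter ℂ Q, ‖h (φ k) χ‖ = H (φ k) := by rw [hH]
      rw [this]
      exact mul_inv_cancel₀ hk.ne'
    have e3 : Tendsto (fun k => ∑ χ : DirichletCharacter ℂ Q, ‖u (φ k) χ‖) atTop (𝓝 1) :=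
      tendsto_const_nhds.congr' (by filter_upwards [e2] with k hk using hk.symm)
    have e4 := tendsto_nhds_unique e1 e3
    simp only [hc, norm_zero, Finset.sum_const_zero] at e4
    exact zero_ne_one e4
  · intro χ hχ
    have e1 : Tendsto (fun k => h k χ) atTop (𝓝 (EE χ ρ / LFunction χ ρ)) := by
      rw [hh]
      exact (hEc χ).div (hLc χ) hχ
    have e2 : Tendsto (fun k => u k χ) atTop (𝓝 0) := by
      rw [hu]
      have := e1.mul hHc
      simpa using this
    exact tendsto_nhds_unique (hgχ χ) (e2.comp hφt)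
  · intro b hb
    obtain ⟨C, hC⟩ := hJ b hb
    obtain ⟨A, hA, hAs⟩ := ident ha ha1 b hC
    have hAc : Tendsto (fun k => A (sq k)) atTop (𝓝 (A ρ)) := by
      have hUo : IsOpen {s : ℂ | a < s.re} := isOpen_lt continuous_const Complex.continuous_re
      exact ((hA.differentiableAt (hUo.mem_nhds haρ)).continuousAt.tendsto).comp hlim0
    have e1 : Tendsto (fun k => (Q.totient : ℂ) * A (sq k) * ((H k : ℝ) : ℂ)⁻¹) atTop (𝓝 0) := by
      have := (hAc.const_mul (Q.totient : ℂ)).mul hHc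
      simpa using this
    have e2 : ∀ᶠ k in atTop, (Q.totient : ℂ) * A (sq k) * ((H k : ℝ) : ℂ)⁻¹ =
        ∑ χ : DirichletCharacter ℂ Q, u k χ * χ (b : ZMod Q) := by
      filter_upwards [hev1, hevre, hevL] with k h1 h2 h3
      rw [hAs (sq k) h2 h1 h3, Finset.sum_mul, hu, hh]
      refine Finset.sum_congr rfl fun χ _ => ?_
      ring
    have e3 : Tendsto (fun k => ∑ χ : DirichletCharacter ℂ Q, u (φ k) χ * χ (b : ZMod Q)) atTop
        (𝓝 (∑ χ : DirichletCharacter ℂ Q, g χ * χ (b : ZMod Q))) :=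
      tendsto_finset_sum _ fun χ _ => (hgχ χ).mul_const _
    have e4 : Tendsto (fun k => ∑ χ : DirichletCharacter ℂ Q, u (φ k) χ * χ (b : ZMod Q)) atTop
        (𝓝 0) := ((e1.congr' e2).comp hφt)
    exact tendsto_nhds_unique e3 e4

end Pool.Agent.T9h54.LZ
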