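import Mathlib

/-!
# Project LZ: Dirichlet series of the Moebius function with additive characters
-/

set_option autoImplicit false

namespace Pool.Agent.T9h54.LZ

open Finset

/-- the Moebius function -/
noncomputable def mu (n : ℕ) : ℂ := ((ArithmeticFunction.moebius n : ℤ) : ℂ)

theorem norm_mu_le (n : ℕ) : ‖mu n‖ ≤ 1 := by
  unfold mu
  rw [Complex.norm_intCast]
  exact_mod_cast ArithmeticFunction.abs_moebius_le_one

variable {Q : ℕ} [NeZero Q]

/-- the additive character `n ↦ e(n b / Q)` -/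
noncomputable def ad (b : ZMod Q) (n : ℕ) : ℂ := ZMod.stdAddChar ((n : ZMod Q) * b)

theorem norm_ad (b : ZMod Q) (n : ℕ) : ‖ad b n‖ = 1 := by
  unfold ad
  rw [ZMod.stdAddChar_apply]
  exact Circle.norm_coe _

/-- the Gauss sum of `χ⁻¹` at `n` -/
noncomputable def cc (χ : DirichletCharacter ℂ Q) (n : ℕ) : ℂ :=
  ∑ b : (ZMod Q)ˣ, χ⁻¹ (b : ZMod Q) * ad (b : ZMod Q) n

/-- the numerator -/
noncomputable def EE (χ : DirichletCharacter ℂ Q) (s : ℂ) : ℂ :=
  ∑ d ∈ Q.divisors, mu d * cc χ d * (d : ℂ) ^ (-s)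

theorem cc_mul (χ : DirichletCharacter ℂ Q) (d m : ℕ) (hm : m.Coprime Q) :
    cc χ (d * m) = χ (m : ZMod Q) * cc χ d := by
  unfold cc
  rw [Finset.mul_sum]
  set u : (ZMod Q)ˣ := ZMod.unitOfCoprime m hm with hu
  have hum : (u : ZMod Q) = (m : ZMod Q) := by rw [hu, ZMod.coe_unitOfCoprime]
  refine Fintype.sum_equiv (Equiv.mulLeft u) _ _ fun b => ?_
  simp only [Equiv.coe_mulLeft, Units.val_mul]
  unfold ad
  rw [hum]
  have h1 : χ (m : ZMod Q) * (χ⁻¹ ((m : ZMod Q) * b)) = χ⁻¹ (b : ZMod Q) := by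
    rw [map_mul, ← mul_assoc]
    have : χ (m : ZMod Q) * χ⁻¹ (m : ZMod Q) = 1 := by
      rw [← hum, ← MulChar.mul_apply, mul_inv_cancel, MulChar.one_apply_coe]
    rw [this, one_mul]
  rw [← mul_assoc, h1]
  congr 2
  push_cast
  ring

theorem norm_cc_le (χ : DirichletCharacter ℂ Q) (n : ℕ) : ‖cc χ n‖ ≤ Q := by
  unfold cc
  refine (norm_sum_le _ _).trans ?_
  calc ∑ b : (ZMod Q)ˣ, ‖χ⁻¹ (b : ZMod Q) * ad (b : ZMod Q) n‖
      ≤ ∑ b : (ZMod Q)ˣ, (1 : ℝ) := by
        refine Finset.sum_le_sum fun b _ => ?_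
        rw [norm_mul, norm_ad, mul_one]
        exact DirichletCharacter.norm_le_one _ _
    _ = (Fintype.card (ZMod Q)ˣ : ℝ) := by simp
    _ ≤ Q := by
        rw [ZMod.card_units_eq_totient]
        exact_mod_cast Nat.totient_le Q

/-- the finitely supported factor -/
noncomputable def gg (χ : DirichletCharacter ℂ Q) (n : ℕ) : ℂ :=
  if n ∈ Q.divisors then mu n * cc χ n else 0

theorem conv_eq (χ : DirichletCharacter ℂ Q) (n : ℕ) (hn : n ≠ 0) :
    mu n * cc χ n = (LSeries.convolution (gg χ) fun m => χ (m : ZMod Q) * mu m) n := by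
  rw [LSeries.convolution_def]
  simp only
  have hQ : Q ≠ 0 := NeZero.ne Q
  set d₀ := n.gcd Q with hd₀
  have hd0 : d₀ ≠ 0 := Nat.gcd_ne_zero_left hn
  obtain ⟨m₀, hm₀⟩ : d₀ ∣ n := Nat.gcd_dvd_left n Q
  have key : ∀ p ∈ n.divisorsAntidiagonal, gg χ p.1 * (χ (p.2 : ZMod Q) * mu p.2) ≠ 0 →
      p = (d₀, m₀) ∧ m₀.Coprime Q := by
    intro p hp h
    rw [Nat.mem_divisorsAntidiagonal] at hp
    have h1 : p.1 ∈ Q.divisors := by
      by_contra hc
      apply h
      unfold gg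
      rw [if_neg hc, zero_mul]
    have h2 : p.2.Coprime Q := by
      by_contra hc
      apply h
      have : χ (p.2 : ZMod Q) = 0 := by
        apply χ.map_nonunit
        rwa [ZMod.isUnit_iff_coprime]
      rw [this, zero_mul, mul_zero]
    have h3 : d₀ = p.1 := by
      rw [hd₀, ← hp.1]
      rw [Nat.Coprime.gcd_mul_right_cancel _ h2]
      exact Nat.gcd_eq_left (Nat.dvd_of_mem_divisors h1)
    have h4 : m₀ = p.2 := by
      have : d₀ * m₀ = d₀ * p.2 := by
        rw [← hm₀, h3, hp.1]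
      exact Nat.eq_of_mul_eq_mul_left (Nat.pos_of_ne_zero hd0) this
    refine ⟨by rw [h3, h4], by rw [h4]; exact h2⟩
  by_cases hc : m₀.Coprime Q
  · rw [Finset.sum_eq_single (d₀, m₀)]
    · simp only
      have hdd : d₀ ∈ Q.divisors := Nat.mem_divisors.2 ⟨Nat.gcd_dvd_right n Q, hQ⟩
      unfold gg
      rw [if_pos hdd]
      have h1 : cc χ n = χ (m₀ : ZMod Q) * cc χ d₀ := by
        conv_lhs => rw [hm₀]
        exact cc_mul χ d₀ m₀ hc
      have h2 : mu n = mu d₀ * mu m₀ := by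
        have hco : d₀.Coprime m₀ :=
          (Nat.Coprime.coprime_dvd_right (Nat.gcd_dvd_right n Q) hc).symm
        unfold mu
        conv_lhs => rw [hm₀]
        rw [ArithmeticFunction.isMultiplicative_moebius.map_mul_of_coprime hco]
        push_cast
        ring
      rw [h1, h2]
      ring
    · intro p hp hne
      by_contra h
      exact hne (key p hp h).1
    · intro h
      exfalso
      apply h
      rw [Nat.mem_divisorsAntidiagonal]
      exact ⟨hm₀.symm, hn⟩
  · rw [Finset.sum_eq_zero]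
    · have hsq : ¬ Squarefree n := by
        intro hs
        apply hc
        rw [Nat.coprime_iff_gcd_eq_one]
        by_contra hg
        obtain ⟨p, hp, hpd⟩ := Nat.exists_prime_and_dvd hg
        have hp1 : p ∣ m₀ := hpd.trans (Nat.gcd_dvd_left _ _)
        have hp2 : p ∣ Q := hpd.trans (Nat.gcd_dvd_right _ _)
        have hp3 : p ∣ n := hp1.trans ⟨d₀, by rw [mul_comm]; exact hm₀⟩
        have hp4 : p ∣ d₀ := Nat.dvd_gcd hp3 hp2
        have hp5 : p * p ∣ n := by
          rw [hm₀]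
          exact mul_dvd_mul hp4 hp1
        exact hp.one_lt.ne' (Nat.isUnit_iff.1 (hs p hp5))
      unfold mu
      rw [ArithmeticFunction.moebius_eq_zero_of_not_squarefree hsq]
      simp
    · intro p hp
      by_contra h
      exact hc (key p hp h).2

theorem summable_bdd {f : ℕ → ℂ} {m : ℝ} (hf : ∀ n, ‖f n‖ ≤ m) {s : ℂ} (hs : 1 < s.re) :
    LSeriesSummable f s :=
  LSeriesSummable_of_bounded_of_one_lt_re (m := m) (fun n _ => hf n) hs

theorem LSeries_gg (χ : DirichletCharacter ℂ Q) (s : ℂ) : LSeries (gg χ) s = EE χ s := by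
  unfold LSeries EE
  rw [tsum_eq_sum (s := Q.divisors)]
  · refine Finset.sum_congr rfl fun d hd => ?_
    have hd0 : d ≠ 0 := (Nat.pos_of_mem_divisors hd).ne'
    rw [LSeries.term_of_ne_zero hd0]
    unfold gg
    rw [if_pos hd, Complex.cpow_neg, div_eq_mul_inv]
  · intro n hn
    unfold LSeries.term
    split_ifs with h
    · rfl
    · unfold gg
      rw [if_neg hn, zero_div]

theorem summable_gg (χ : DirichletCharacter ℂ Q) (s : ℂ) : LSeriesSummable (gg χ) s := by
  refine summable_of_ne_finset_zero (s := Q.divisors) fun n hn => ?_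
  unfold LSeries.term
  split_ifs with h
  · rfl
  · unfold gg
    rw [if_neg hn, zero_div]

/-- The Dirichlet series of `μ(n)` times the Gauss sum of `χ⁻¹` at `n`. -/
theorem LSeries_mu_cc (χ : DirichletCharacter ℂ Q) {s : ℂ} (hs : 1 < s.re) :
    LSeries (fun n => mu n * cc χ n) s * DirichletCharacter.LFunction χ s = EE χ s := by
  have h1 : LSeries (fun n => mu n * cc χ n) s =
      LSeries (LSeries.convolution (gg χ) fun m => χ (m : ZMod Q) * mu m) s :=
    LSeries_congr (fun {n} hn => conv_eq χ n hn) s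
  have hsum : LSeriesSummable (fun m : ℕ => χ (m : ZMod Q) * mu m) s := by
    refine summable_bdd (m := 1) (fun n => ?_) hs
    rw [norm_mul]
    calc _ ≤ (1 : ℝ) * 1 := mul_le_mul (DirichletCharacter.norm_le_one χ _) (norm_mu_le n)
            (norm_nonneg _) zero_le_one
      _ = 1 := one_mul 1
  rw [h1, LSeries_convolution' (summable_gg χ s) hsum, LSeries_gg]
  have h2 := DirichletCharacter.LSeries.mul_mu_eq_one χ hs
  rw [DirichletCharacter.LFunction_eq_LSeries χ hs]
  have h3 : LSeries (fun m : ℕ => χ (m : ZMod Q) * mu m) s =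
      LSeries ((fun n : ℕ => χ n) * fun n : ℕ => ((ArithmeticFunction.moebius n : ℤ) : ℂ)) s := rfl
  rw [h3, mul_assoc, mul_comm (LSeries _ s) (LSeries _ s), h2, mul_one]

theorem sum_char (b : (ZMod Q)ˣ) (n : ℕ) :
    ∑ χ : DirichletCharacter ℂ Q, χ (b : ZMod Q) * cc χ n = (Q.totient : ℂ) * ad (b : ZMod Q) n := by
  unfold cc
  have h1 : ∀ χ : DirichletCharacter ℂ Q, χ (b : ZMod Q) * ∑ c : (ZMod Q)ˣ, χ⁻¹ (c : ZMod Q) *
      ad (c : ZMod Q) n = ∑ c : (ZMod Q)ˣ, χ⁻¹ (c : ZMod Q) * χ (b : ZMod Q) * ad (c : ZMod Q) n := by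
    intro χ
    rw [Finset.mul_sum]
    refine Finset.sum_congr rfl fun c _ => ?_
    ring
  rw [Finset.sum_congr rfl fun χ _ => h1 χ, Finset.sum_comm]
  have h2 : ∀ c : (ZMod Q)ˣ, ∑ χ : DirichletCharacter ℂ Q, χ⁻¹ (c : ZMod Q) * χ (b : ZMod Q) *
      ad (c : ZMod Q) n = if c = b then (Q.totient : ℂ) * ad (c : ZMod Q) n else 0 := by
    intro c
    rw [← Finset.sum_mul]
    have h3 := DirichletCharacter.sum_char_inv_mul_char_eq ℂ (a := (c : ZMod Q)) c.isUnit (b : ZMod Q)
    have h4 : ∑ χ : DirichletCharacter ℂ Q, χ⁻¹ (c : ZMod Q) * χ (b : ZMod Q) =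
        ∑ χ : DirichletCharacter ℂ Q, χ (c : ZMod Q)⁻¹ * χ (b : ZMod Q) := by
      refine Finset.sum_congr rfl fun χ _ => ?_
      rw [MulChar.inv_apply, Ring.inverse_unit, ZMod.inv_coe_unit]
    rw [h4, h3]
    by_cases h : c = b
    · rw [if_pos h, if_pos (congrArg _ h)]
    · rw [if_neg h, if_neg (fun h' => h (Units.ext h')), zero_mul]
  rw [Finset.sum_congr rfl fun c _ => h2 c, Finset.sum_ite_eq' Finset.univ b, if_pos (Finset.mem_univ _)]

/-- `φ(Q) D_b(s)` is the sum of `χ(b) E_χ(s) / L(s, χ)`, for `Re s > 1`. -/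
theorem LSeries_mu_ad (b : (ZMod Q)ˣ) {s : ℂ} (hs : 1 < s.re) :
    (Q.totient : ℂ) * LSeries (fun n => mu n * ad (b : ZMod Q) n) s =
      ∑ χ : DirichletCharacter ℂ Q, χ (b : ZMod Q) * LSeries (fun n => mu n * cc χ n) s := by
  have hsm : ∀ χ : DirichletCharacter ℂ Q, LSeriesSummable (fun n => mu n * cc χ n) s := by
    intro χ
    refine summable_bdd (m := Q) (fun n => ?_) hs
    rw [norm_mul]
    calc _ ≤ (1 : ℝ) * Q := mul_le_mul (norm_mu_le n) (norm_cc_le χ n) (norm_nonneg _) zero_le_one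
      _ = Q := one_mul _
  have h1 : ∀ χ : DirichletCharacter ℂ Q, χ (b : ZMod Q) * LSeries (fun n => mu n * cc χ n) s =
      LSeries (χ (b : ZMod Q) • fun n => mu n * cc χ n) s := by
    intro χ
    rw [LSeries_smul]
  rw [Finset.sum_congr rfl fun χ _ => h1 χ, ← LSeries_sum fun χ _ => (hsm χ).smul _,
    ← LSeries_smul]
  congr 1
  funext n
  rw [Finset.sum_apply]
  simp only [Pi.smul_apply, smul_eq_mul]
  have h2 := sum_char b n
  calc (Q.totient : ℂ) * (mu n * ad (b : ZMod Q) n) = mu n * ((Q.totient : ℂ) * ad (b : ZMod Q) n) := by ring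
    _ = mu n * ∑ χ : DirichletCharacter ℂ Q, χ (b : ZMod Q) * cc χ n := by rw [h2]
    _ = _ := by
        rw [Finset.mul_sum]
        refine Finset.sum_congr rfl fun χ _ => ?_
        ring

end Pool.Agent.T9h54.LZ
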